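import Mathlib
import Pool.Agent.Lib.MP_e95952_lc.Cont

set_option autoImplicit false

namespace Pool.Agent.Variants.MP_e95952_lc.DiamondJoined

open Pool.Agent.Lib.MP_e95952_lc

/-- The parametrized diamond of the mixing relation refutes the strong polarized relation at the
first uncountable cardinal; the value of the mixing relation is the splitting number when this
equals the ultrafilter number; and the negated form of the problem holds whenever the continuum
is at most the second uncountable cardinal and the diamond follows from a small value. -/
theorem result :
    (ParamDiamond Mixes → ¬ Polarized (Cardinal.aleph 1)) ∧
    (splittingNumber = ultrafilterNumber → invValue Mixes = splittingNumber) ∧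
    (Cardinal.continuum ≤ Cardinal.aleph.{0} 2 →
      (invValue Mixes ≤ Cardinal.aleph 1 → ParamDiamond Mixes) →
      splittingNumber = ultrafilterNumber → ¬ Polarized splittingNumber) :=
  ⟨not_polarized_of_diamond, invValue_mixes, negative_of_canonical⟩

end Pool.Agent.Variants.MP_e95952_lc.DiamondJoined
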